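import Pool.Agent.Helper74.DR.St

/-!
# Project DR (MP_26f0da_lc), module MAC: the machine
-/

set_option autoImplicit false

namespace Pool.Agent.Helper16.DR

open Pool.Agent.Helper74.DR

theorem hMAC : StMAC := by
  intro α W rk M h0 hrule s w
  constructor
  · intro h
    obtain ⟨n, hn⟩ : ∃ n, w.length ≤ n := ⟨_, le_rfl⟩
    induction n generalizing s w with
    | zero =>
      have hw : w = [] := List.length_eq_zero_iff.1 (Nat.le_zero.1 hn)
      subst hw
      cases s with
      | nil => exact Acc.nil
      | cons X s =>
        obtain ⟨u, v, huv, hu, -⟩ := (cat_cons M X s []).1 h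
        have hu' : u = [] := (List.append_eq_nil_iff.1 huv.symm).1
        subst hu'
        exact absurd hu (h0 X)
    | succ n ih =>
      cases s with
      | nil =>
        rw [cat_nil] at h
        subst h
        exact Acc.nil
      | cons X s =>
        obtain ⟨u, v, rfl, hu, hv⟩ := (cat_cons M X s w).1 h
        cases u with
        | nil => exact absurd hu (h0 X)
        | cons a u =>
          obtain ⟨γ, hr, hγ⟩ := hrule a u X hu
          refine Acc.step a X γ s (u ++ v) hr (ih _ _ ?_ ?_)
          · exact (cat_append M γ s (u ++ v)).2 ⟨u, v, rfl, hγ, hv⟩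
          · simp only [List.cons_append, List.length_cons] at hn
            omega
  · intro h
    induction h with
    | nil => exact (cat_nil M []).2 rfl
    | step a X γ s w hr _ ih =>
      obtain ⟨w₁, w₂, rfl, h1, h2⟩ := (cat_append M γ s w).1 ih
      exact (cat_cons M X s _).2 ⟨a :: w₁, w₂, rfl, hr.2.2 w₁ h1, h2⟩

end Pool.Agent.Helper16.DR
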